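import Pool.Agent.Lib.MP_17a322_ntLH.Defs

/-!
# Covers of tori: definitions
-/

namespace LVH

open Finset

/-- the value at `x` of the Laurent polynomial with the monomials `x ^ E k` and the coefficients `a k` -/
def lv {F : Type} [Field F] {n : ℕ} {ι : Type} [Fintype ι] (E : ι → Fin n → ℤ) (a : ι → F) (x : Fin n → F) : F :=
  ∑ k, a k * ∏ l, x l ^ E k l

/-- the index set of the coefficients of `m` polynomials which are Laurent polynomials in `x` (monomials indexed by `ι`)
and forms of degrees `d i` in `m + 1` variables `y` -/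
abbrev Mb (ι : Type) {m : ℕ} (d : Fin m → ℕ) : Type := (i : Fin m) × (ι × Sym (Fin (m + 1)) (d i))

/-- the value at `(x, y)` of the `i`-th polynomial -/
def Gv {F : Type} [Field F] {n m : ℕ} {ι : Type} [Fintype ι] {d : Fin m → ℕ} (E : Fin m → ι → Fin n → ℤ) (a : Mb ι d → F)
    (i : Fin m) (x : Fin n → F) (y : Fin (m + 1) → F) : F :=
  fv (fun α => lv (E i) (fun k => a ⟨i, (k, α)⟩) x) y

end LVH
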