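import Pool.Agent.Lib.MP_17a322_ntLH.T4R
import Pool.Agent.Lib.MP_17a322_ntLH.E1
import Pool.Agent.Lib.MP_17a322_ntCT.Defs

/-!
# LEAF PC: integrality of powers and scaling of projective points

PROOF of `pow_red`.  If `w = 0` or `w ∈ π.V`: `Rd π w s` with `s = π.ρ w`, so `Rd π (γ w ^ q) (γ' s ^ q)` and `Rd.unique`.  Otherwise `w⁻¹ ∈ π.V` (valuation ring) with `w ∉ π.V`, so `Rd π w⁻¹ 0` (`π.ker`: `(w⁻¹)⁻¹ = w ∉ π.V`); `γ = v₀ (w⁻¹) ^ q` with `v₀ = γ w ^ q`, so `Rd π γ (v * 0 ^ q)` i.e. `γ' = 0` (`q ≥ 1`): contradiction.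
PROOF of `ct_scale`.  As in leaf T7: take `k` with `y k` of maximal size (`y i / y k ∈ π.V` for all `i`; `y k ≠ 0`), and `λ = (y k)⁻¹`.
-/

namespace LVH

open Finset

theorem pow_red {K : Type} [Field K] {p : ℕ} [Fact p.Prime] {π : Pl K p} {q : ℕ} (hq : 1 ≤ q) {γ w v₀ : K} {γ' v : ZMod p}
    (hγ : Rd π γ γ') (hγ0 : γ' ≠ 0) (hv : Rd π v₀ v) (h : γ * w ^ q = v₀) : ∃ s : ZMod p, γ' * s ^ q = v := by
  by_cases hw : w ∈ π.V
  · have h1 : Rd π w (π.ρ ⟨w, hw⟩) := ⟨hw, rfl⟩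
    have h2 := hγ.mul (h1.pow q)
    rw [h] at h2
    exact ⟨_, h2.unique hv⟩
  · have hw0 : w ≠ 0 := by
      intro h1
      rw [h1] at hw
      exact hw π.V.zero_mem
    have h1 : w⁻¹ ∈ π.V := (π.V.mem_or_inv_mem w).resolve_left hw
    have h2 : Rd π w⁻¹ 0 := ⟨h1, π.ker ⟨w⁻¹, h1⟩ (by
      show (w⁻¹)⁻¹ ∉ π.V
      rw [inv_inv]
      exact hw)⟩
    have h3 := hv.mul (h2.pow q)
    rw [← h, mul_assoc, ← mul_pow, mul_inv_cancel₀ hw0, one_pow, mul_one, zero_pow (by omega), mul_zero] at h3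
    exact absurd (hγ.unique h3) hγ0

theorem ct_scale {K : Type} [Field K] {p : ℕ} [Fact p.Prime] (π : Pl K p) {s : ℕ} (y : Fin s → K) (hy : y ≠ 0) :
    ∃ (c : K) (y' : Fin s → ZMod p), c ≠ 0 ∧ y' ≠ 0 ∧ ∀ l, Rd π (c * y l) (y' l) := by
  obtain ⟨i, hi⟩ := Function.ne_iff.1 hy
  obtain ⟨k, -, hk⟩ := Finset.exists_max_image Finset.univ (fun l => π.V.valuation (y l)) ⟨i, Finset.mem_univ i⟩
  have hk0 : y k ≠ 0 := by
    intro h1
    have h2 := hk i (Finset.mem_univ i)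
    rw [h1, map_zero] at h2
    exact hi (π.V.valuation.zero_iff.1 (le_antisymm h2 zero_le))
  have hm : ∀ l, (y k)⁻¹ * y l ∈ π.V := by
    intro l
    rw [← ValuationSubring.valuation_le_one_iff, map_mul, map_inv₀]
    have h2 := hk l (Finset.mem_univ l)
    have h3 : π.V.valuation (y k) ≠ 0 := (π.V.valuation.ne_zero_iff).2 hk0
    calc (π.V.valuation (y k))⁻¹ * π.V.valuation (y l)
        ≤ (π.V.valuation (y k))⁻¹ * π.V.valuation (y k) := mul_le_mul_right h2 _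
      _ = 1 := inv_mul_cancel₀ h3
  refine ⟨(y k)⁻¹, fun l => π.ρ ⟨_, hm l⟩, inv_ne_zero hk0, ?_, fun l => ⟨hm l, rfl⟩⟩
  intro h1
  have h2 : π.ρ ⟨_, hm k⟩ = 0 := congrFun h1 k
  have h3 : Rd π ((y k)⁻¹ * y k) 0 := ⟨hm k, h2⟩
  rw [inv_mul_cancel₀ hk0] at h3
  exact one_ne_zero (Rd.one.unique h3 : (1 : ZMod p) = 0)

end LVH
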