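import Pool.Agent.Lib.MP_17a322_ntCT.Defs
import Pool.Agent.Lib.MP_10e784_agV.VD1

/-!
# LEAF PA: the density for cyclic covers

PROOF.  `q ∣ p - 1`: the `q`-th powers in `ZMod p` (with `0`) are `1 + (p - 1) / q ≤ (p + 1) / 2 ≤ (2 / 3) p` (`p ≥ 3`, as `q ∣ p - 1`, `q ≥ 2`): the kernel of `s ↦ s ^ q` on `(ZMod p)ˣ` (cyclic of order `p - 1`) has `q` elements (`IsCyclic.card_pow_eq_one_le`, or the image has index `q`; it is enough that there is an element of order `q`, so that every fibre over a nonzero `q`-th power has at least `q ≥ 2` elements: the number of nonzero `q`-th powers is at most `(p - 1) / 2`).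
`γ s ^ q = v` for some `s`: `v` is in `γ` times this set, same number of elements.  `MWS.card_fib` (folder MP_10e784_agV, VD1) with `κ = Unit` (or the equivalence `ι ≃ Unit × ι`) gives `card {c} * p = card {v} * p ^ card ι`.
-/

namespace LVH

open Finset

private theorem PA_pow {p q : ℕ} [Fact p.Prime] (hq : q.Prime) (hpq : q ∣ p - 1) (γ : ZMod p) (hγ : γ ≠ 0) :
    2 * Nat.card {x : ZMod p // ∃ s : ZMod p, γ * s ^ q = x} ≤ p + 1 := by
  classical
  have hpp : p.Prime := Fact.out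
  obtain ⟨ζ, hζ⟩ := exists_prime_orderOf_dvd_card' (G := (ZMod p)ˣ) (p := q) (hp := ⟨hq⟩)
    (by rw [Nat.card_eq_fintype_card, ZMod.card_units_eq_totient, Nat.totient_prime hpp]; exact hpq)
  have hζ1 : ζ ≠ 1 := by
    intro h
    rw [h, orderOf_one] at hζ
    exact hq.one_lt.ne hζ
  have hζq : (ζ : ZMod p) ^ q = 1 := by
    rw [← hζ, ← Units.val_pow_eq_pow_val, pow_orderOf_eq_one, Units.val_one]
  have hζ0 : (ζ : ZMod p) ≠ 0 := ζ.ne_zero
  set f : ZMod p → ZMod p := fun s => γ * s ^ q with hf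
  set S : Finset (ZMod p) := univ.erase 0 with hS
  have hSc : S.card = p - 1 := by
    rw [hS, Finset.card_erase_of_mem (Finset.mem_univ _), Finset.card_univ, ZMod.card]
  have h1 : (S.image f).card * 2 ≤ S.card := by
    rw [Finset.card_eq_sum_card_image f S, ← smul_eq_mul]
    refine Finset.card_nsmul_le_sum _ _ _ fun b hb => ?_
    obtain ⟨s, hs, rfl⟩ := Finset.mem_image.1 hb
    have hs0 : s ≠ 0 := (Finset.mem_erase.1 hs).1
    have hne : s ≠ (ζ : ZMod p) * s := by
      intro h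
      apply hζ1
      apply Units.ext
      rw [Units.val_one]
      have h2 : (1 : ZMod p) * s = (ζ : ZMod p) * s := by rw [one_mul]; exact h
      exact (mul_right_cancel₀ hs0 h2).symm
    have hsub : ({s, (ζ : ZMod p) * s} : Finset (ZMod p)) ⊆ S.filter (fun x => f x = f s) := by
      intro t ht
      rw [Finset.mem_insert, Finset.mem_singleton] at ht
      rw [Finset.mem_filter, hS, Finset.mem_erase]
      rcases ht with rfl | rfl
      · exact ⟨⟨hs0, Finset.mem_univ _⟩, rfl⟩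
      · refine ⟨⟨mul_ne_zero hζ0 hs0, Finset.mem_univ _⟩, ?_⟩
        show γ * ((ζ : ZMod p) * s) ^ q = γ * s ^ q
        rw [mul_pow, hζq, one_mul]
    calc 2 = ({s, (ζ : ZMod p) * s} : Finset (ZMod p)).card := (Finset.card_pair hne).symm
      _ ≤ _ := Finset.card_le_card hsub
  have h2 : Nat.card {x : ZMod p // ∃ s : ZMod p, γ * s ^ q = x} = (univ.image f).card := by
    rw [Nat.card_eq_fintype_card, Fintype.card_subtype]
    refine congrArg Finset.card (Finset.ext fun x => ?_)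
    rw [Finset.mem_filter, Finset.mem_image]
    constructor
    · rintro ⟨-, s, hs⟩
      exact ⟨s, Finset.mem_univ _, hs⟩
    · rintro ⟨s, -, hs⟩
      exact ⟨Finset.mem_univ _, s, hs⟩
  have h3 : (univ.image f).card ≤ (S.image f).card + 1 := by
    have h4 : univ.image f ⊆ insert (f 0) (S.image f) := by
      intro x hx
      obtain ⟨s, -, rfl⟩ := Finset.mem_image.1 hx
      by_cases h : s = 0
      · rw [h]
        exact Finset.mem_insert_self _ _
      · exact Finset.mem_insert_of_mem (Finset.mem_image.2 ⟨s, Finset.mem_erase.2 ⟨h, Finset.mem_univ _⟩, rfl⟩)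
    exact (Finset.card_le_card h4).trans (Finset.card_insert_le _ _)
  have hp1 := hpp.one_lt
  rw [h2]
  omega

theorem dens_pow {p q : ℕ} [Fact p.Prime] (hq : q.Prime) (hpq : q ∣ p - 1) {ι : Type} [Fintype ι] [DecidableEq ι]
    (w : ι → ZMod p) (hw : w ≠ 0) (γ : ZMod p) (hγ : γ ≠ 0) :
    (Nat.card {c : ι → ZMod p // ∃ s : ZMod p, γ * s ^ q = ∑ k, c k * w k} : ℝ) ≤
      (1 - 1 / 3) * (p : ℝ) ^ Fintype.card ι := by
  classical
  have hpp : p.Prime := Fact.out
  have hp3 : 3 ≤ p := by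
    have h1 := hpp.one_lt
    have h2 := Nat.le_of_dvd (by omega) hpq
    have h3 := hq.two_le
    omega
  have hw' : ∃ k, w k ≠ 0 := Function.ne_iff.1 hw
  have h1 := MWS.card_fib (κ := Unit) w hw' {f : Unit → ZMod p | ∃ s : ZMod p, γ * s ^ q = f ()}
  have h3 : Nat.card {c : Unit × ι → ZMod p // (fun i => ∑ k, c (i, k) * w k) ∈
      {f : Unit → ZMod p | ∃ s : ZMod p, γ * s ^ q = f ()}} =
      Nat.card {c : ι → ZMod p // ∃ s : ZMod p, γ * s ^ q = ∑ k, c k * w k} := by
    refine Nat.card_congr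
      { toFun := fun c => ⟨fun k => c.1 ((), k), c.2⟩
        invFun := fun c => ⟨fun t => c.1 t.2, c.2⟩
        left_inv := fun c => rfl
        right_inv := fun c => rfl }
  have h4 : Nat.card {f : Unit → ZMod p | ∃ s : ZMod p, γ * s ^ q = f ()} =
      Nat.card {x : ZMod p // ∃ s : ZMod p, γ * s ^ q = x} := by
    refine Nat.card_congr
      { toFun := fun f => ⟨f.1 (), f.2⟩
        invFun := fun x => ⟨fun _ => x.1, x.2⟩
        left_inv := fun c => rfl
        right_inv := fun c => rfl }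
  rw [h3, h4, Fintype.card_unit, one_mul, pow_one] at h1
  have h6 : (Nat.card {x : ZMod p // ∃ s : ZMod p, γ * s ^ q = x} : ℝ) ≤ 2 / 3 * (p : ℝ) := by
    have h7 : 3 * Nat.card {x : ZMod p // ∃ s : ZMod p, γ * s ^ q = x} ≤ 2 * p := by
      have := PA_pow hq hpq γ hγ
      omega
    have h8 : (3 : ℝ) * (Nat.card {x : ZMod p // ∃ s : ZMod p, γ * s ^ q = x} : ℝ) ≤ 2 * (p : ℝ) := by
      exact_mod_cast h7
    linarith
  have hp0 : (0 : ℝ) < (p : ℝ) := by exact_mod_cast hpp.pos
  have h9 : (Nat.card {c : ι → ZMod p // ∃ s : ZMod p, γ * s ^ q = ∑ k, c k * w k} : ℝ) * (p : ℝ) =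
      (Nat.card {x : ZMod p // ∃ s : ZMod p, γ * s ^ q = x} : ℝ) * (p : ℝ) ^ Fintype.card ι := by exact_mod_cast h1
  have h10 : 0 ≤ (p : ℝ) ^ Fintype.card ι := by positivity
  refine le_of_mul_le_mul_right ?_ hp0
  rw [h9]
  calc (Nat.card {x : ZMod p // ∃ s : ZMod p, γ * s ^ q = x} : ℝ) * (p : ℝ) ^ Fintype.card ι ≤
        2 / 3 * (p : ℝ) * (p : ℝ) ^ Fintype.card ι := mul_le_mul_of_nonneg_right h6 h10
    _ = (1 - 1 / 3) * (p : ℝ) ^ Fintype.card ι * (p : ℝ) := by ring

end LVH
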