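import Pool.Agent.Lib.MP_17a322_ntLH.T4R

/-!
# LEAF PE: roots of unity

PROOF of `root_dvd`.  `ζ` is integral over `ℤ`, so `ζ ∈ π.V` (`V` is integrally closed in `K`; or: if `ζ ∉ V` then `ζ⁻¹ ∈ V` with residue `0` by `π.ker`, and `(ζ⁻¹) ^ q = 1`, contradiction), and also `ζ⁻¹ = ζ ^ (q - 1) ∈ V`; let `z` be the residue, `z ^ q = 1`.  `1 + ζ + .. + ζ ^ (q - 1) = 0` (`IsPrimitiveRoot.geom_sum_eq_zero`), so `1 + z + .. + z ^ (q - 1) = 0` (`Rd.sum`, `Rd.pow`, `Rd.unique`); if `z = 1` this is `q = 0` in `ZMod p`, so `p ∣ q`, `p = q`.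
So `z ≠ 1` has order `q` and `q ∣ p - 1` (`orderOf_dvd_of_pow_eq_one`, `ZMod.orderOf_dvd_card_sub_one`).
-/

namespace LVH

open Finset

theorem root_dvd {K : Type} [Field K] {p q : ℕ} [Fact p.Prime] (hq : q.Prime) (hpq : p ≠ q) (π : Pl K p) {ζ : K}
    (hζ : IsPrimitiveRoot ζ q) : q ∣ p - 1 := by
  have : Fact q.Prime := ⟨hq⟩
  have h1 : IsIntegral π.V ζ := (hζ.isIntegral hq.pos).tower_top
  obtain ⟨y, hy⟩ := IsIntegrallyClosed.isIntegral_iff.mp h1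
  have h2 : Rd π ζ (π.ρ y) := by
    have hm : ζ ∈ π.V := hy ▸ y.2
    refine ⟨hm, ?_⟩
    have h3 : (⟨ζ, hm⟩ : π.V) = y := Subtype.ext hy.symm
    rw [h3]
  generalize π.ρ y = z at h2
  have h3 : z ^ q = 1 := by
    have h4 := h2.pow q
    rw [hζ.pow_eq_one] at h4
    exact h4.unique Rd.one
  have h4 : ∑ i ∈ range q, z ^ i = 0 := by
    have h5 : Rd π (∑ i ∈ range q, ζ ^ i) (∑ i ∈ range q, z ^ i) :=
      Rd.sum _ fun i _ => h2.pow i
    rw [hζ.geom_sum_eq_zero hq.one_lt] at h5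
    exact h5.unique Rd.zero
  have h5 : z ≠ 1 := by
    rintro rfl
    have h6 : ((q : ℕ) : ZMod p) = 0 := by
      rw [← h4]
      simp
    rw [ZMod.natCast_eq_zero_iff] at h6
    exact hpq ((Nat.prime_dvd_prime_iff_eq Fact.out hq).mp h6)
  have h6 : z ≠ 0 := by
    rintro rfl
    rw [zero_pow hq.ne_zero] at h3
    exact zero_ne_one h3
  rw [← orderOf_eq_prime h3 h5]
  exact ZMod.orderOf_dvd_card_sub_one h6

end LVH
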