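import Pool.Agent.Lib.MP_17a322_ntLH.T4R
import Pool.Agent.Lib.MP_17a322_ntLH.T5
import Pool.Agent.Lib.MP_10e784_agW.GA

/-!
# LEAF PD: finitely generated groups of units: bad primes, classes modulo `L`, residues

PROOF of `fg_pl`.  `Γ` is the closure of a finite set `S`; for each `g ∈ S` `unit_pl` gives `M g`; `M = 1 + ∑ M g`; the set of the `g` with `g ∈ π.V`, `g⁻¹ ∈ π.V` is a subgroup (`Subgroup.closure_induction`).
PROOF of `fg_cls`.  `MWS.classes` (folder MP_10e784_agW, GA) for the additive group `Fin n → Additive Γ` (a finite `ℤ`-module: `Γ` is finitely generated), written multiplicatively.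
PROOF of `res_cls`.  Residues `a` of `r l`, `b` of `y l`, `b ≠ 0` (`Rd.ne`), `b ^ L = 1` as `p - 1 ∣ L` (`ZMod.pow_card_sub_one_eq_one`).
-/

namespace LVH

open Finset NumberField

theorem fg_pl (K : Type) [Field K] [NumberField K] (Γ : Subgroup Kˣ) (hΓ : Γ.FG) : ∃ M : ℕ, ∀ p : ℕ, p.Prime → M < p →
    ∀ π : Pl K p, ∀ g ∈ Γ, (g : K) ∈ π.V ∧ (g : K)⁻¹ ∈ π.V := by
  obtain ⟨S, hS⟩ := hΓ
  have h := fun g : Kˣ => unit_pl K g.ne_zero
  choose M hM using h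
  refine ⟨∑ g ∈ S, M g, fun p hp hMp π g hg => ?_⟩
  rw [← hS] at hg
  induction hg using Subgroup.closure_induction with
  | mem x hx =>
    refine hM x p hp (lt_of_le_of_lt ?_ hMp) π
    exact Finset.single_le_sum (f := M) (fun _ _ => Nat.zero_le _) (Finset.mem_coe.1 hx)
  | one => simp
  | mul x y _ _ hx hy =>
    rw [Units.val_mul, mul_inv]
    exact ⟨π.V.mul_mem _ _ hx.1 hy.1, π.V.mul_mem _ _ hx.2 hy.2⟩
  | inv x _ hx =>
    rw [Units.val_inv_eq_inv_val, inv_inv]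
    exact ⟨hx.2, hx.1⟩

theorem fg_cls (K : Type) [Field K] (Γ : Subgroup Kˣ) (hΓ : Γ.FG) (n : ℕ) : ∃ t : ℕ, ∀ L : ℕ, 1 ≤ L →
    ∃ r : Fin (L ^ t) → Fin n → Kˣ, (∀ i l, r i l ∈ Γ) ∧ ∀ x : Fin n → Kˣ, (∀ l, x l ∈ Γ) →
      ∃ i, ∃ y : Fin n → Kˣ, (∀ l, y l ∈ Γ) ∧ ∀ l, x l = r i l * y l ^ L := by
  have h1 : Group.FG Γ := (Group.fg_iff_subgroup_fg Γ).2 hΓ
  have h2 : AddGroup.FG (Additive Γ) := inferInstance
  have h3 : Module.Finite ℤ (Additive Γ) := Module.Finite.iff_addGroup_fg.2 h2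
  obtain ⟨t, ht⟩ := MWS.classes (Fin n → Additive Γ)
  refine ⟨t, fun L hL => ?_⟩
  obtain ⟨r, hr⟩ := ht L hL
  refine ⟨fun i l => ((r i l).toMul : Γ), fun i l => ((r i l).toMul : Γ).2, fun x hx => ?_⟩
  obtain ⟨i, Q, hQ⟩ := hr fun l => Additive.ofMul (⟨x l, hx l⟩ : Γ)
  refine ⟨i, fun l => ((Q l).toMul : Γ), fun l => ((Q l).toMul : Γ).2, fun l => ?_⟩
  have h4 := congrArg (fun z : Additive Γ => ((z.toMul : Γ) : Kˣ)) (congrFun hQ l)
  exact h4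

theorem res_cls {K : Type} [Field K] {p : ℕ} [Fact p.Prime] {π : Pl K p} {r y : Kˣ} (hr : (r : K) ∈ π.V)
    (hy : (y : K) ∈ π.V) (hy' : (y : K)⁻¹ ∈ π.V) {L : ℕ} (hL : p - 1 ∣ L) {a : ZMod p} (ha : Rd π (r : K) a) :
    Rd π ((r * y ^ L : Kˣ) : K) a := by
  have h1 : Rd π (y : K) (π.ρ ⟨(y : K), hy⟩) := ⟨hy, rfl⟩
  have h2 := h1.ne y.ne_zero hy'
  obtain ⟨k, rfl⟩ := hL
  have h3 := ha.mul (h1.pow ((p - 1) * k))
  rw [pow_mul (π.ρ ⟨(y : K), hy⟩), ZMod.pow_card_sub_one_eq_one h2, one_pow, mul_one] at h3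
  rw [Units.val_mul, Units.val_pow_eq_pow_val]
  exact h3

end LVH
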